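import Pool.Agent.Helper65.NX.Goals2

/-!
# Networks of processors: cellular automata as networks, the bounds (packet AWTH)
-/

namespace Pool.Agent.Helper65.NX.K88

open Pool.Agent.Helper65.LinSpace Pool.Agent.Helper78.Mpc Pool.Agent.Helper28.Ram Finset
open Pool.Agent.Helper65.HC Pool.Agent.Helper65.NX
open Pool.Agent.Helper81.Sus2 (Decomp)

theorem view_eq (A : Net) (n : ℕ) (p : List Bool) (t : ℕ) (v : List Bool → List Bool)
    (z : List Bool) (i : ℕ) : ∃ X, A.view n p t v z i = hd n t p z ++ X := by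
  induction i with
  | zero => exact ⟨[], by simp [Net.view]⟩
  | succ i ih =>
    obtain ⟨X, hX⟩ := ih
    exact ⟨X ++ sd (v (A.inp n p t z i)), by rw [Net.view, hX, List.append_assoc]⟩

theorem anext_len {D : ℕ} (A : CA D) (s : ℕ) (hs : ∀ q, (sc A q).length ≤ s) (x : List Bool) :
    (anext A x).length ≤ s := by
  unfold anext
  split_ifs
  · exact hs _
  · exact hs _
  · exact hs _
  · exact Nat.zero_le _
  · exact Nat.zero_le _

theorem nm_zero {D : ℕ} (b : ℕ) : nm b (0 : Fin D → ℤ) = List.replicate (D * b) false := by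
  have h : tab (2 ^ b) D (fun j => if h : j < D then (((0 : Fin D → ℤ) ⟨j, h⟩) % 2 ^ b).toNat else 0)
      = 0 := by
    unfold tab
    refine Finset.sum_eq_zero fun j _ => ?_
    show (if h : j < D then (((0 : Fin D → ℤ) ⟨j, h⟩) % 2 ^ b).toNat else 0) * (2 ^ b) ^ j = 0
    split_ifs <;> simp
  unfold nm
  rw [h]
  simp [pad]

theorem sc_head {D : ℕ} (A : CA D) (q : A.State) : (sc A q).head? = some true ↔ q ∈ A.accept := by
  unfold sc
  simp

/-! ### Inequalities -/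

theorem cube_le (k : ℕ) : (k + 1) ^ 3 ≤ 8 * 2 ^ k := by
  rcases lt_or_ge k 7 with h | h
  · interval_cases k <;> norm_num
  · induction k, h using Nat.le_induction with
    | base => norm_num
    | succ k hk ih =>
      have e : (2 : ℕ) ^ (k + 1) = 2 * 2 ^ k := by ring
      rw [e]
      nlinarith [Nat.mul_le_mul hk (Nat.mul_le_mul hk hk), Nat.mul_le_mul hk hk]

theorem sq_le (k : ℕ) : (k + 1) ^ 2 ≤ 4 * 2 ^ k := by
  rcases lt_or_ge k 4 with h | h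
  · interval_cases k <;> norm_num
  · induction k, h using Nat.le_induction with
    | base => norm_num
    | succ k hk ih =>
      have e : (2 : ℕ) ^ (k + 1) = 2 * 2 ^ k := by ring
      rw [e]
      nlinarith [Nat.mul_le_mul hk hk]

/-- `l ^ 3 ≤ 8 (n + 1)` -/
theorem lcube (n : ℕ) : ((Nat.log 2 n : ℝ) + 1) ^ 3 ≤ 8 * ((n : ℝ) + 1) := by
  have h1 : 2 ^ Nat.log 2 n ≤ n + 1 := by
    rcases Nat.eq_zero_or_pos n with rfl | h
    · simp
    · exact (Nat.pow_log_le_self 2 h.ne').trans (Nat.le_succ n)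
  have h2 := (cube_le (Nat.log 2 n)).trans (Nat.mul_le_mul_left 8 h1)
  exact_mod_cast h2

/-- `l' ^ 2 ≤ 4 l` -/
theorem lsq (m : ℕ) (hm : 0 < m) : ((Nat.log 2 m : ℝ) + 1) ^ 2 ≤ 4 * (m : ℝ) := by
  have h2 := (sq_le (Nat.log 2 m)).trans (Nat.mul_le_mul_left 4 (Nat.pow_log_le_self 2 hm.ne'))
  exact_mod_cast h2

theorem lle (m : ℕ) (hm : 0 < m) : (Nat.log 2 m : ℝ) + 1 ≤ (m : ℝ) := by
  have h1 : Nat.log 2 m < m := Nat.log_lt_self 2 hm.ne'
  exact_mod_cast h1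

/-- the bound `B` and its two inequalities -/
theorem exists_B (D : ℕ) (hD : 0 < D) (Q : ℝ) (hQ : 0 < Q) : ∃ B : ℕ, 0 < B ∧
    (B : ℝ) ^ D ≤ max 1 Q ∧ Q ^ (1 / (D : ℝ)) ≤ 2 * B := by
  have hY : 0 ≤ Q ^ (1 / (D : ℝ)) := Real.rpow_nonneg hQ.le _
  have hYD : (Q ^ (1 / (D : ℝ))) ^ D = Q := by
    rw [one_div]
    exact Real.rpow_inv_natCast_pow hQ.le hD.ne'
  refine ⟨max 1 ⌊Q ^ (1 / (D : ℝ))⌋₊, lt_of_lt_of_le one_pos (le_max_left _ _), ?_, ?_⟩
  · rcases le_total ⌊Q ^ (1 / (D : ℝ))⌋₊ 1 with h | h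
    · rw [max_eq_left h]
      simp
    · rw [max_eq_right h]
      refine le_trans ?_ (le_max_right _ _)
      calc ((⌊Q ^ (1 / (D : ℝ))⌋₊ : ℕ) : ℝ) ^ D ≤ (Q ^ (1 / (D : ℝ))) ^ D :=
            pow_le_pow_left₀ (Nat.cast_nonneg _) (Nat.floor_le hY) D
        _ = Q := hYD
  · have h1 := Nat.lt_floor_add_one (Q ^ (1 / (D : ℝ)))
    have h2 : (⌊Q ^ (1 / (D : ℝ))⌋₊ : ℝ) ≤ ((max 1 ⌊Q ^ (1 / (D : ℝ))⌋₊ : ℕ) : ℝ) := by
      exact_mod_cast le_max_right _ _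
    have h3 : (1 : ℝ) ≤ ((max 1 ⌊Q ^ (1 / (D : ℝ))⌋₊ : ℕ) : ℝ) := by
      exact_mod_cast le_max_left _ _
    linarith

/-- `V s l l' ≤ C' N'` -/
theorem ineq1 (D B s : ℕ) (hB : 1 ≤ B) (N' l l' : ℝ) (hl : 0 < l) (hl' : 0 < l')
    (h8 : l * l' ≤ 8 * N') (hN : 0 ≤ N') (hB1 : (B : ℝ) ^ D ≤ max 1 (N' / (l * l'))) :
    (((2 * B + 1) ^ D : ℕ) : ℝ) * s * l * l' ≤ (8 * 3 ^ D * s) * N' := by
  have hBr : (1 : ℝ) ≤ (B : ℝ) := by exact_mod_cast hB
  have h1 : (((2 * B + 1) ^ D : ℕ) : ℝ) ≤ 3 ^ D * (B : ℝ) ^ D := by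
    push_cast
    rw [← mul_pow]
    exact pow_le_pow_left₀ (by positivity) (by linarith) D
  have h2 : (B : ℝ) ^ D * (l * l') ≤ 8 * N' := by
    rcases le_total 1 (N' / (l * l')) with h | h
    · rw [max_eq_right h] at hB1
      rw [le_div_iff₀ (by positivity)] at hB1
      linarith
    · rw [max_eq_left h] at hB1
      calc (B : ℝ) ^ D * (l * l') ≤ 1 * (l * l') :=
            mul_le_mul_of_nonneg_right hB1 (by positivity)
        _ ≤ 8 * N' := by linarith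
  have hs0 : (0 : ℝ) ≤ s := Nat.cast_nonneg _
  calc (((2 * B + 1) ^ D : ℕ) : ℝ) * s * l * l'
      = (((2 * B + 1) ^ D : ℕ) : ℝ) * (s * (l * l')) := by ring
    _ ≤ (3 ^ D * (B : ℝ) ^ D) * (s * (l * l')) :=
        mul_le_mul_of_nonneg_right h1 (by positivity)
    _ = (3 ^ D * s) * ((B : ℝ) ^ D * (l * l')) := by ring
    _ ≤ (3 ^ D * s) * (8 * N') := mul_le_mul_of_nonneg_left h2 (by positivity)
    _ = (8 * 3 ^ D * s) * N' := by ring

/-- `x l l' ≤ C' N' B` -/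
theorem ineq2 (D : ℕ) (hD : 0 < D) (N' l l' C₀ t Br : ℝ) (hl : 1 ≤ l) (hl' : 1 ≤ l') (hN : 1 ≤ N')
    (hC : 0 ≤ C₀) (h8 : l * l' ≤ 8 * N') (h4 : l' ^ 2 ≤ 4 * l) (hB : 1 ≤ Br)
    (ht : t ≤ C₀ * N' ^ (1 + 1 / (D : ℝ)) / l ^ 3)
    (hB2 : (N' / (l * l')) ^ (1 / (D : ℝ)) ≤ 2 * Br) :
    (t + 1) * l * l' ≤ (8 * C₀ + 8) * (N' * Br) := by
  have hl0 : 0 < l := by linarith
  have hl'0 : 0 < l' := by linarith
  have hN0 : 0 < N' := by linarith
  have hll' : 1 ≤ l * l' := by nlinarith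
  have hD1 : (1 : ℝ) ≤ (D : ℝ) := by exact_mod_cast hD
  have hD2 : 1 / (D : ℝ) ≤ 1 := by
    rw [div_le_one (by linarith)]
    exact hD1
  have hQ : 0 < N' / (l * l') := by positivity
  have e1 : N' ^ (1 + 1 / (D : ℝ)) = N' * (N' / (l * l')) ^ (1 / (D : ℝ)) *
      (l * l') ^ (1 / (D : ℝ)) := by
    rw [Real.rpow_add hN0, Real.rpow_one, Real.div_rpow hN0.le (by positivity)]
    have : (l * l') ^ (1 / (D : ℝ)) ≠ 0 := (Real.rpow_pos_of_pos (by positivity) _).ne'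
    rw [mul_assoc, div_mul_cancel₀ _ this]
  have e2 : (l * l') ^ (1 / (D : ℝ)) ≤ l * l' := by
    calc (l * l') ^ (1 / (D : ℝ)) ≤ (l * l') ^ (1 : ℝ) :=
          Real.rpow_le_rpow_of_exponent_le hll' hD2
      _ = l * l' := Real.rpow_one _
  have e3 : (l * l') ^ 2 ≤ 4 * l ^ 3 := by
    calc (l * l') ^ 2 = l ^ 2 * l' ^ 2 := by ring
      _ ≤ l ^ 2 * (4 * l) := mul_le_mul_of_nonneg_left h4 (by positivity)
      _ = 4 * l ^ 3 := by ring
  set P : ℝ := N' * (N' / (l * l')) ^ (1 / (D : ℝ)) with hP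
  have hP0 : 0 ≤ P := mul_nonneg hN0.le (Real.rpow_nonneg hQ.le _)
  have h1 : t * (l * l') ≤ C₀ * (4 * P) := by
    calc t * (l * l') ≤ C₀ * N' ^ (1 + 1 / (D : ℝ)) / l ^ 3 * (l * l') :=
          mul_le_mul_of_nonneg_right ht (by positivity)
      _ = C₀ * (N' ^ (1 + 1 / (D : ℝ)) * (l * l') / l ^ 3) := by ring
      _ ≤ C₀ * (4 * P) := by
          refine mul_le_mul_of_nonneg_left ?_ hC
          rw [div_le_iff₀ (by positivity), e1]
          calc P * (l * l') ^ (1 / (D : ℝ)) * (l * l')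
              = P * ((l * l') ^ (1 / (D : ℝ)) * (l * l')) := by ring
            _ ≤ P * ((l * l') * (l * l')) := by
                refine mul_le_mul_of_nonneg_left ?_ hP0
                exact mul_le_mul_of_nonneg_right e2 (by positivity)
            _ = P * (l * l') ^ 2 := by ring
            _ ≤ P * (4 * l ^ 3) := mul_le_mul_of_nonneg_left e3 hP0
            _ = 4 * P * l ^ 3 := by ring
  have h2 : C₀ * (4 * P) ≤ C₀ * (8 * (N' * Br)) := by
    refine mul_le_mul_of_nonneg_left ?_ hC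
    have : P ≤ N' * (2 * Br) := mul_le_mul_of_nonneg_left hB2 hN0.le
    linarith
  have h3 : l * l' ≤ 8 * (N' * Br) := by
    have : N' * 1 ≤ N' * Br := mul_le_mul_of_nonneg_left hB hN0.le
    linarith
  calc (t + 1) * l * l' = t * (l * l') + l * l' := by ring
    _ ≤ C₀ * (8 * (N' * Br)) + 8 * (N' * Br) := by linarith
    _ = (8 * C₀ + 8) * (N' * Br) := by ring

/-- `b ≤ (2 + c0) l` -/
theorem ineq3 (D n b t c0 : ℕ) (hD : 0 < D) (C₀ : ℝ) (hC : 0 ≤ C₀) (hc0 : 4 * (C₀ + 1) ≤ (2 : ℝ) ^ c0)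
    (hb2 : 2 ^ b ≤ 4 * (t + 1))
    (ht : (t : ℝ) ≤ C₀ * ((n : ℝ) + 1) ^ (1 + 1 / (D : ℝ)) / ((Nat.log 2 n : ℝ) + 1) ^ 3) :
    (b : ℝ) ≤ (2 + c0) * ((Nat.log 2 n : ℝ) + 1) := by
  have hn0 : (0 : ℝ) ≤ (n : ℝ) := Nat.cast_nonneg n
  have hN1 : (1 : ℝ) ≤ (n : ℝ) + 1 := by linarith
  have hl0 : (0 : ℝ) ≤ (Nat.log 2 n : ℝ) := Nat.cast_nonneg _
  have hl1 : (1 : ℝ) ≤ (Nat.log 2 n : ℝ) + 1 := by linarith
  have hD1 : (1 : ℝ) ≤ (D : ℝ) := by exact_mod_cast hD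
  have hD2 : 1 / (D : ℝ) ≤ 1 := by
    rw [div_le_one (by linarith)]
    exact hD1
  have h1 : (t : ℝ) ≤ C₀ * ((n : ℝ) + 1) ^ 2 := by
    refine ht.trans ?_
    rw [mul_div_assoc]
    refine mul_le_mul_of_nonneg_left ?_ hC
    have h2 : ((n : ℝ) + 1) ^ (1 + 1 / (D : ℝ)) ≤ ((n : ℝ) + 1) ^ (2 : ℝ) :=
      Real.rpow_le_rpow_of_exponent_le hN1 (by linarith)
    rw [Real.rpow_two] at h2
    rw [div_le_iff₀ (by positivity)]
    have h3 : 1 ≤ ((Nat.log 2 n : ℝ) + 1) ^ 3 := one_le_pow₀ hl1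
    exact h2.trans (le_mul_of_one_le_right (by positivity) h3)
  have h2 : ((2 : ℝ)) ^ b ≤ 4 * ((t : ℝ) + 1) := by exact_mod_cast hb2
  have h3 : (n : ℝ) + 1 ≤ 2 ^ (Nat.log 2 n + 1) := by
    have : n + 1 ≤ 2 ^ (Nat.log 2 n + 1) := Nat.lt_pow_succ_log_self (by norm_num) n
    exact_mod_cast this
  have h4 : (2 : ℝ) ^ b ≤ 2 ^ (2 * (Nat.log 2 n + 1) + c0) := by
    have h5 : (1 : ℝ) ≤ ((n : ℝ) + 1) ^ 2 := one_le_pow₀ hN1
    calc (2 : ℝ) ^ b ≤ 4 * (C₀ * ((n : ℝ) + 1) ^ 2 + 1) := by linarith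
      _ ≤ 4 * (C₀ + 1) * ((n : ℝ) + 1) ^ 2 := by linarith
      _ ≤ 2 ^ c0 * (2 ^ (Nat.log 2 n + 1)) ^ 2 := by
        refine mul_le_mul hc0 (pow_le_pow_left₀ (by linarith) h3 2) (by positivity) (by positivity)
      _ = 2 ^ (2 * (Nat.log 2 n + 1) + c0) := by ring
  have h5 : b ≤ 2 * (Nat.log 2 n + 1) + c0 := by
    have : (2 : ℕ) ^ b ≤ 2 ^ (2 * (Nat.log 2 n + 1) + c0) := by exact_mod_cast h4
    exact (Nat.pow_le_pow_iff_right (by norm_num)).1 this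
  have h6 : (b : ℝ) ≤ 2 * ((Nat.log 2 n : ℝ) + 1) + c0 := by exact_mod_cast h5
  have h7 : (0 : ℝ) ≤ c0 := Nat.cast_nonneg _
  have h8 : (c0 : ℝ) * 1 ≤ c0 * ((Nat.log 2 n : ℝ) + 1) := mul_le_mul_of_nonneg_left hl1 h7
  calc (b : ℝ) ≤ 2 * ((Nat.log 2 n : ℝ) + 1) + c0 := h6
    _ ≤ (2 + c0) * ((Nat.log 2 n : ℝ) + 1) := by linarith

/-- `(s + a) l ^ 2 ≤ C' N'` -/
theorem ineq4 (D b s c0 : ℕ) (l N' : ℝ) (hl : 1 ≤ l) (hb : (b : ℝ) ≤ (2 + c0) * l)
    (hl3 : l ^ 3 ≤ 8 * N') :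
    ((s : ℝ) + ((D * b + b : ℕ) : ℝ)) * l ^ 2 ≤ 8 * ((s : ℝ) + (D + 1) * (2 + c0)) * N' := by
  have hs0 : (0 : ℝ) ≤ s := Nat.cast_nonneg _
  have h1 : (s : ℝ) + ((D * b + b : ℕ) : ℝ) ≤ ((s : ℝ) + (D + 1) * (2 + c0)) * l := by
    push_cast
    have e2 : ((D : ℝ) + 1) * b ≤ (D + 1) * ((2 + c0) * l) :=
      mul_le_mul_of_nonneg_left hb (by positivity)
    have e3 : (s : ℝ) ≤ s * l := le_mul_of_one_le_right hs0 hl
    calc (s : ℝ) + (D * b + b) = s + (D + 1) * b := by ring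
      _ ≤ s * l + (D + 1) * ((2 + c0) * l) := by linarith
      _ = (s + (D + 1) * (2 + c0)) * l := by ring
  calc ((s : ℝ) + ((D * b + b : ℕ) : ℝ)) * l ^ 2
      ≤ ((s : ℝ) + (D + 1) * (2 + c0)) * l * l ^ 2 :=
        mul_le_mul_of_nonneg_right h1 (by positivity)
    _ = ((s : ℝ) + (D + 1) * (2 + c0)) * l ^ 3 := by ring
    _ ≤ ((s : ℝ) + (D + 1) * (2 + c0)) * (8 * N') :=
        mul_le_mul_of_nonneg_left hl3 (by positivity)
    _ = 8 * ((s : ℝ) + (D + 1) * (2 + c0)) * N' := by ring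

/-! ### The network -/

theorem val_zero_cell (hV : AVAL_stmt) {D : ℕ} [NeZero D] (A : CA D) (N : Net) (hN : IsCA A N)
    (hcw : ∀ g g' : (Fin D → Fin 3) → A.State, cw A g = cw A g' → g = g') (w y : List Bool)
    (b t : ℕ) (hb : 2 * (t + 1) < 2 ^ b) :
    N.val w y (List.replicate (D * b) false) (t + 1) (List.replicate (D * b) false) =
      sc A (A.config w y t 0) := by
  have h := hV D A N hN hcw w y b t 0 hb (fun j => by
    simp only [Pi.zero_apply, abs_zero, zero_add]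
    have h2 : 2 * t < 2 ^ b := by omega
    exact_mod_cast h2)
  rwa [nm_zero] at h

theorem val_step {D : ℕ} (A : CA D) (N : Net) (hN : IsCA A N) (w y p z : List Bool) (t : ℕ) :
    ∃ x X : List Bool, N.val w y p (t + 1) z = anext A x ∧ re (re x) = hd w.length t p z ++ X := by
  obtain ⟨X, hX⟩ := view_eq N w.length p t (N.val w y p t) z N.deg
  refine ⟨sd w[bval (N.addr (false :: N.view w.length p t (N.val w y p t) z N.deg))]?.toList ++
    (sd y[bval (N.addr (true :: N.view w.length p t (N.val w y p t) z N.deg))]?.toList ++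
      N.view w.length p t (N.val w y p t) z N.deg), X, ?_, ?_⟩
  · rw [← hN.next]
    rfl
  · rw [re_sd, re_sd, hX]

theorem sound (hV : AVAL_stmt) {D : ℕ} [NeZero D] (A : CA D) (N : Net) (hN : IsCA A N)
    (hcw : ∀ g g' : (Fin D → Fin 3) → A.State, cw A g = cw A g' → g = g') (w y p : List Bool)
    (r : ℕ) (hacc : N.AcceptsAt w y p r) : ∃ t, A.config w y t 0 ∈ A.accept := by
  unfold Net.AcceptsAt at hacc
  rcases Nat.eq_zero_or_pos r with rfl | hr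
  · simp [Net.val] at hacc
  obtain ⟨t, rfl⟩ : ∃ t, r = t + 1 := ⟨r - 1, by omega⟩
  obtain ⟨x, X, h1, h2⟩ := val_step A N hN w y p p t
  have hal : Alive D (re (re x)) := by
    by_contra hna
    rw [h1] at hacc
    unfold anext at hacc
    rw [if_neg hna] at hacc
    simp at hacc
  unfold Alive at hal
  rw [h2, hp_hd, ht_hd] at hal
  obtain ⟨a1, a2, a3⟩ := hal
  have hp : p = List.replicate (D * (p.length / D)) false := by
    apply eq_of_bval
    · rw [List.length_replicate, a1]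
    · rw [a2, bval_replicate]
  have h3 := val_zero_cell hV A N hN hcw w y (p.length / D) t a3
  rw [← hp] at h3
  rw [h3, sc_head] at hacc
  exact ⟨t, hacc⟩

theorem val_len {D : ℕ} (A : CA D) (N : Net) (hN : IsCA A N) (s : ℕ)
    (hs : ∀ q, (sc A q).length ≤ s) (w y p z : List Bool) (τ : ℕ) :
    (N.val w y p τ z).length ≤ s := by
  rcases Nat.eq_zero_or_pos τ with rfl | hτ
  · exact Nat.zero_le _
  · obtain ⟨t', rfl⟩ : ∃ t', τ = t' + 1 := ⟨τ - 1, by omega⟩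
    obtain ⟨x, X, h1, -⟩ := val_step A N hN w y p z t'
    rw [h1]
    exact anext_len A s hs x

theorem addr_len {D : ℕ} (A : CA D) (N : Net) (hN : IsCA A N) (n : ℕ) (p z : List Bool) (t : ℕ)
    (v : List Bool → List Bool) (i : ℕ) (b : Bool) : N.addr (b :: N.view n p t v z i) = z := by
  obtain ⟨X, hX⟩ := view_eq N n p t v z i
  rw [hX, hN.addr]
  simp only [List.drop_succ_cons, List.drop_zero]
  exact hz_hd n t p z X

/-- AWTH. -/
theorem awth (hL : ALIN_stmt) (hV : AVAL_stmt) (hC : ACONE_stmt) : AWTH_stmt := by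
  intro D _ A
  have := A.finState
  have hD : 0 < D := Nat.pos_of_ne_zero (NeZero.ne D)
  obtain ⟨⟨N, hN⟩, hcw⟩ := hL A
  obtain ⟨s, hs⟩ : ∃ s, ∀ q, (sc A q).length ≤ s := by
    obtain ⟨s, hs⟩ := (Set.finite_range fun q => (sc A q).length).bddAbove
    exact ⟨s, fun q => hs ⟨q, rfl⟩⟩
  refine ⟨N, ?_, ?_⟩
  · rintro w y ⟨p, r, hacc⟩
    exact sound hV A N hN hcw w y p r hacc
  · intro C
    have hC₀0 : 0 ≤ max C 0 := le_max_right _ _
    obtain ⟨c0, hc0⟩ : ∃ c0 : ℕ, 4 * (max C 0 + 1) ≤ (2 : ℝ) ^ c0 := by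
      obtain ⟨c0, hc0⟩ := pow_unbounded_of_one_lt (4 * (max C 0 + 1)) (one_lt_two)
      exact ⟨c0, hc0.le⟩
    have k1 : 0 ≤ 8 * (3 : ℝ) ^ D * s := by positivity
    have k2 : 0 ≤ 8 * max C 0 + 8 := by positivity
    have k3 : 0 ≤ 8 * ((s : ℝ) + (D + 1) * (2 + c0)) := by positivity
    refine ⟨8 * (3 : ℝ) ^ D * s + (8 * max C 0 + 8) + 8 * ((s : ℝ) + (D + 1) * (2 + c0)), ?_⟩
    rintro E c w y ⟨t, ht, hacc⟩
    have hn0 : (0 : ℝ) ≤ (w.length : ℝ) := Nat.cast_nonneg _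
    have hN1 : 1 ≤ (w.length : ℝ) + 1 := by linarith
    have hlg0 : (0 : ℝ) ≤ (Nat.log 2 w.length : ℝ) := Nat.cast_nonneg _
    have hl1 : 1 ≤ (Nat.log 2 w.length : ℝ) + 1 := by linarith
    have hl0 : 0 < (Nat.log 2 w.length : ℝ) + 1 := by linarith
    have hlg'0 : (0 : ℝ) ≤ (Nat.log 2 (Nat.log 2 w.length + 1) : ℝ) := Nat.cast_nonneg _
    have hl'1 : 1 ≤ (Nat.log 2 (Nat.log 2 w.length + 1) : ℝ) + 1 := by linarith
    have hl'0 : 0 < (Nat.log 2 (Nat.log 2 w.length + 1) : ℝ) + 1 := by linarith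
    have hl3 := lcube w.length
    have hll := lle (Nat.log 2 w.length + 1) (Nat.succ_pos _)
    have hl'2 := lsq (Nat.log 2 w.length + 1) (Nat.succ_pos _)
    push_cast at hll hl'2
    have hll8 : ((Nat.log 2 w.length : ℝ) + 1) * ((Nat.log 2 (Nat.log 2 w.length + 1) : ℝ) + 1) ≤
        8 * ((w.length : ℝ) + 1) := by
      have h1 := mul_le_mul_of_nonneg_left hll hl0.le
      have h2 : ((Nat.log 2 w.length : ℝ) + 1) ^ 2 * 1 ≤
          ((Nat.log 2 w.length : ℝ) + 1) ^ 2 * ((Nat.log 2 w.length : ℝ) + 1) :=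
        mul_le_mul_of_nonneg_left hl1 (sq_nonneg _)
      linarith [h1, h2, hl3, show ((Nat.log 2 w.length : ℝ) + 1) ^ 3 =
        ((Nat.log 2 w.length : ℝ) + 1) ^ 2 * ((Nat.log 2 w.length : ℝ) + 1) by ring,
        show ((Nat.log 2 w.length : ℝ) + 1) ^ 2 =
          ((Nat.log 2 w.length : ℝ) + 1) * ((Nat.log 2 w.length : ℝ) + 1) by ring]
    have ht0 : (t : ℝ) ≤ max C 0 * ((w.length : ℝ) + 1) ^ (1 + 1 / (D : ℝ)) /
        ((Nat.log 2 w.length : ℝ) + 1) ^ 3 := by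
      refine ht.trans ?_
      have h1 : 0 ≤ ((w.length : ℝ) + 1) ^ (1 + 1 / (D : ℝ)) /
        ((Nat.log 2 w.length : ℝ) + 1) ^ 3 := by positivity
      rw [mul_div_assoc, mul_div_assoc]
      exact mul_le_mul_of_nonneg_right (le_max_left _ _) h1
    obtain ⟨B, hB0, hB1, hB2⟩ := exists_B D hD (((w.length : ℝ) + 1) /
      (((Nat.log 2 w.length : ℝ) + 1) * ((Nat.log 2 (Nat.log 2 w.length + 1) : ℝ) + 1)))
      (by positivity)
    have hBr : (1 : ℝ) ≤ (B : ℝ) := by exact_mod_cast hB0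
    obtain ⟨b, hb1, hb2⟩ : ∃ b : ℕ, 2 * (t + 1) < 2 ^ b ∧ 2 ^ b ≤ 4 * (t + 1) := by
      refine ⟨(2 * (t + 1)).size, Nat.lt_size_self _, ?_⟩
      have h1 : 0 < (2 * (t + 1)).size := Nat.size_pos.2 (by omega)
      obtain ⟨b', hb'⟩ : ∃ b', (2 * (t + 1)).size = b' + 1 :=
        ⟨(2 * (t + 1)).size - 1, by omega⟩
      have h2 : 2 ^ b' ≤ 2 * (t + 1) := by
        by_contra h
        push Not at h
        have := Nat.size_le.2 h
        omega
      rw [hb', pow_succ]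
      omega
    have hlen : (List.replicate (D * b) false).length = D * b := List.length_replicate
    have hbl := ineq3 D w.length b t c0 hD (max C 0) hC₀0 hc0 hb2 ht0
    have q1 := ineq1 D B s hB0 _ _ _ hl0 hl'0 hll8 (by linarith) hB1
    have q2 := ineq2 D hD _ _ _ (max C 0) t B hl1 hl'1 hN1 hC₀0 hll8 hl'2 hBr ht0 hB2
    have q3 := ineq4 D b s c0 _ _ hl1 hbl hl3
    refine ⟨List.replicate (D * b) false, t + 1, s, D * b + b, t + 1, B, (2 * B + 1) ^ D, ?_, ?_, ?_,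
      hB0, ?_, ?_, ?_, ?_, ?_, ?_⟩
    · unfold Net.AcceptsAt
      rw [val_zero_cell hV A N hN hcw w y b t hb1, sc_head]
      exact hacc
    · rw [hlen]; omega
    · calc t + 1 < 2 ^ b := by omega
        _ ≤ 2 ^ (D * b + b) := Nat.pow_le_pow_right (by norm_num) (by omega)
    · calc B ≤ 2 * B + 1 := by omega
        _ = (2 * B + 1) ^ 1 := (pow_one _).symm
        _ ≤ (2 * B + 1) ^ D := Nat.pow_le_pow_right (by omega) hD
    · intro τ _ z hzl
      rw [hlen] at hzl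
      refine ⟨val_len A N hN s hs w y _ z τ, ?_, ?_⟩
      · intro b'
        rw [addr_len A N hN, hzl]
        omega
      · intro k hk _
        exact (hC D A N hN w.length b k τ z hzl).trans (Nat.pow_le_pow_left (by omega) D)
    · intro t1 t2 _ h2 _
      omega
    · refine q1.trans (mul_le_mul_of_nonneg_right ?_ (by linarith))
      linarith
    · push_cast
      refine q2.trans ?_
      rw [mul_assoc]
      refine mul_le_mul_of_nonneg_right ?_ (by positivity)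
      linarith
    · refine q3.trans (mul_le_mul_of_nonneg_right ?_ (by linarith))
      linarith

end Pool.Agent.Helper65.NX.K88
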